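import Pool.Agent.UPQ.A.X
import Pool.Agent.THF.A.Eta

/-!
# UPQ/A-AT: the identity for two classes

PLAN.  Copy THF/A/AT.lean: all its private lemmas are unchanged (`at_claim`, `at_core` do not mention `IsKn`); in `thmAT` the common factor is `fun z => Q z * atX S s0 eta z`, whose zeros for `Re z > b1` are isolated (`atq_iso`);
`thmXq` instead of `thmX`.
-/

namespace Pool.Agent.UPQ

open Pool.Agent.QD Pool.Agent.QD.SysD Pool.Agent.LD Pool.Agent.MD Pool.Agent.THF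

private theorem atq_open (x : ℝ) : IsOpen {z : ℂ | z.re < x} :=
  isOpen_lt Complex.continuous_re continuous_const

private theorem atq_Mdiff {S : SysD} (hS : IsSys0 S) (c : S.G) :
    DifferentiableOn ℂ (S.M c) {w : ℂ | w.re < 0} := by
  unfold SysD.M
  refine DifferentiableOn.fun_sum fun b _ => ?_
  exact (differentiableOn_const _).mul (hS.Gam_diff b)

/-- the properties of the two functions on the strip -/
private def AtqJ (t0 : ℂ) (XX M1 G1 : ℂ → ℂ) (b1 b : ℝ) (J : ℂ → ℂ) : Prop :=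
  DifferentiableOn ℂ J {z : ℂ | 2 - b < z.re ∧ z.re < b} ∧
    (∀ z : ℂ, b1 < z.re → z.re < b → J z = XX z * M1 (t0 - z + 1 / 2)) ∧
    ∀ s : ℂ, 2 - b < s.re → s.re < 1 / 2 → J s = G1 s * J (2 - s)

private theorem atq_claim (t0 : ℂ) (XX M1 M2 G1 G2 r1 r2 Phi : ℂ → ℂ) {b1 : ℝ}
    (hb10 : |t0.re| + 10 ≤ b1)
    (hr1 : Differentiable ℂ r1) (hr2 : Differentiable ℂ r2)
    (hM1 : ∀ w : ℂ, w.re < 0 → M1 w = r1 w * Phi w)
    (hM2 : ∀ w : ℂ, w.re < 0 → M2 w = r2 w * Phi w)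
    (hJ1 : ∀ b : ℝ, b1 < b → ∃ J, AtqJ t0 XX M1 G1 b1 b J)
    (hJ2 : ∀ b : ℝ, b1 < b → ∃ J, AtqJ t0 XX M2 G2 b1 b J)
    (s : ℂ) (hs : s.re < 2 - b1) (hXs : XX (2 - s) ≠ 0) (hPhi : Phi (t0 + s - 3 / 2) ≠ 0) :
      G1 s * r1 (t0 + s - 3 / 2) * r2 (t0 - s + 1 / 2) =
        G2 s * r2 (t0 + s - 3 / 2) * r1 (t0 - s + 1 / 2) := by
  have habs := abs_nonneg t0.re
  have habs2 := le_abs_self t0.re
  set b : ℝ := 3 - s.re with hb
  have hb1 : b1 < b := by rw [hb]; linarith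
  obtain ⟨I1, hI1, hv1, hf1⟩ := hJ1 b hb1
  obtain ⟨I2, hI2, hv2, hf2⟩ := hJ2 b hb1
  set U : Set ℂ := {z : ℂ | 2 - b < z.re ∧ z.re < b} with hU
  have hUo : IsOpen U := (isOpen_lt continuous_const Complex.continuous_re).inter
    (isOpen_lt Complex.continuous_re continuous_const)
  have hUc : IsPreconnected U := by
    have : U = Complex.re ⁻¹' (Set.Ioo (2 - b) b) := rfl
    rw [this]
    exact ((convex_Ioo (2 - b) b).is_linear_preimage
      (Complex.reLm.isLinear)).isPreconnected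
  have hlin : Differentiable ℂ fun z : ℂ => t0 - z + 1 / 2 := by fun_prop
  set G : ℂ → ℂ := fun z => I1 z * r2 (t0 - z + 1 / 2) - I2 z * r1 (t0 - z + 1 / 2) with hG
  have hGd : DifferentiableOn ℂ G U :=
    (hI1.mul (hr2.comp hlin).differentiableOn).sub (hI2.mul (hr1.comp hlin).differentiableOn)
  have hG0 : ∀ z : ℂ, b1 < z.re → z.re < b → G z = 0 := by
    intro z hz1 hz2
    have hre : (t0 - z + 1 / 2).re < 0 := by
      have : (t0 - z + 1 / 2).re = t0.re - z.re + 1 / 2 := by simp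
      rw [this]
      linarith
    simp only [hG]
    rw [hv1 z hz1 hz2, hv2 z hz1 hz2, hM1 _ hre, hM2 _ hre]
    ring
  set z0 : ℂ := (((b1 + b) / 2 : ℝ) : ℂ) with hz0
  have hz0re : z0.re = (b1 + b) / 2 := by simp [hz0]
  have hz0U : z0 ∈ U := by
    refine ⟨?_, ?_⟩
    · rw [hz0re]; linarith
    · rw [hz0re]; linarith
  have hev : G =ᶠ[nhds z0] 0 := by
    have ho : IsOpen {z : ℂ | b1 < z.re ∧ z.re < b} :=
      (isOpen_lt continuous_const Complex.continuous_re).inter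
        (isOpen_lt Complex.continuous_re continuous_const)
    have hm : z0 ∈ {z : ℂ | b1 < z.re ∧ z.re < b} := by
      refine ⟨?_, ?_⟩
      · rw [hz0re]; linarith
      · rw [hz0re]; linarith
    filter_upwards [ho.mem_nhds hm] with z hz
    exact hG0 z hz.1 hz.2
  have hzero := (hGd.analyticOnNhd hUo).eqOn_zero_of_preconnected_of_eventuallyEq_zero hUc hz0U hev
  have hsU : s ∈ U := by
    refine ⟨?_, ?_⟩
    · rw [hb]; linarith
    · rw [hb]; linarith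
  have hGs : G s = 0 := hzero hsU
  have hre2 : (2 - s).re = 2 - s.re := by simp
  have hw' : t0 - (2 - s) + 1 / 2 = t0 + s - 3 / 2 := by ring
  have hw're : (t0 + s - 3 / 2).re < 0 := by
    have : (t0 + s - 3 / 2).re = t0.re + s.re - 3 / 2 := by simp
    rw [this]
    linarith
  have hs3 : 2 - b < s.re := hsU.1
  have hs4 : s.re < 1 / 2 := by linarith
  have e1 : I1 s = G1 s * (XX (2 - s) * (r1 (t0 + s - 3 / 2) * Phi (t0 + s - 3 / 2))) := by
    rw [hf1 s hs3 hs4, hv1 (2 - s) (by rw [hre2]; linarith)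
      (by rw [hre2]; linarith), hw', hM1 _ hw're]
  have e2 : I2 s = G2 s * (XX (2 - s) * (r2 (t0 + s - 3 / 2) * Phi (t0 + s - 3 / 2))) := by
    rw [hf2 s hs3 hs4, hv2 (2 - s) (by rw [hre2]; linarith)
      (by rw [hre2]; linarith), hw', hM2 _ hw're]
  simp only [hG] at hGs
  rw [e1, e2] at hGs
  have hX : XX (2 - s) ≠ 0 := hXs
  have hXP : XX (2 - s) * Phi (t0 + s - 3 / 2) ≠ 0 := mul_ne_zero hX hPhi
  apply mul_left_cancel₀ hXP
  linear_combination hGs

private theorem atq_core (t0 : ℂ) (XX M1 M2 G1 G2 r1 r2 Phi : ℂ → ℂ) {b1 : ℝ}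
    (hb10 : |t0.re| + 10 ≤ b1)
    (hXX : ∀ s : ℂ, s.re < 2 - b1 → ∀ᶠ z in nhdsWithin s {s}ᶜ, XX (2 - z) ≠ 0)
    (hMd : DifferentiableOn ℂ M1 {w : ℂ | w.re < 0})
    (hGd1 : DifferentiableOn ℂ G1 {s : ℂ | s.re < 1 / 2})
    (hGd2 : DifferentiableOn ℂ G2 {s : ℂ | s.re < 1 / 2})
    (hr1 : Differentiable ℂ r1) (hr2 : Differentiable ℂ r2)
    (hM1 : ∀ w : ℂ, w.re < 0 → M1 w = r1 w * Phi w)
    (hM2 : ∀ w : ℂ, w.re < 0 → M2 w = r2 w * Phi w)
    (hne : ∃ w : ℂ, w.re < 0 ∧ M1 w ≠ 0)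
    (hJ1 : ∀ b : ℝ, b1 < b → ∃ J, AtqJ t0 XX M1 G1 b1 b J)
    (hJ2 : ∀ b : ℝ, b1 < b → ∃ J, AtqJ t0 XX M2 G2 b1 b J)
    (s : ℂ) (hs : s.re < 2 - b1) :
      G1 s * r1 (t0 + s - 3 / 2) * r2 (t0 - s + 1 / 2) =
        G2 s * r2 (t0 + s - 3 / 2) * r1 (t0 - s + 1 / 2) := by
  have habs := abs_nonneg t0.re
  have habs2 := le_abs_self t0.re
  -- the half plane in which `z ↦ M1 (t0 + z - 3/2)` is analytic
  set x : ℝ := 3 / 2 - t0.re with hx
  have hHc : IsPreconnected {z : ℂ | z.re < x} := by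
    have : {z : ℂ | z.re < x} = Complex.re ⁻¹' (Set.Iio x) := rfl
    rw [this]
    exact ((convex_Iio x).is_linear_preimage (Complex.reLm.isLinear)).isPreconnected
  have hNd : DifferentiableOn ℂ (fun z => M1 (t0 + z - 3 / 2)) {z : ℂ | z.re < x} := by
    have hlin : Differentiable ℂ fun z : ℂ => t0 + z - 3 / 2 := by fun_prop
    refine hMd.comp hlin.differentiableOn ?_
    intro z hz
    have h3 : (t0 + z - 3 / 2).re = t0.re + z.re - 3 / 2 := by simp
    have h4 : z.re < x := hz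
    change (t0 + z - 3 / 2).re < 0
    rw [h3]
    linarith
  have hNa := hNd.analyticOnNhd (atq_open x)
  have hsx : s ∈ {z : ℂ | z.re < x} := by
    change s.re < x
    rw [hx]
    linarith
  have hdich := (hNa s hsx).eventually_eq_zero_or_eventually_ne_zero
  have hnz : ∀ᶠ z in nhdsWithin s {s}ᶜ, M1 (t0 + z - 3 / 2) ≠ 0 := by
    rcases hdich with h0 | h0
    · exfalso
      have h5 := hNa.eqOn_zero_of_preconnected_of_eventuallyEq_zero hHc hsx h0
      obtain ⟨w, hw, hwM⟩ := hne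
      have h6 : (w - t0 + 3 / 2) ∈ {z : ℂ | z.re < x} := by
        have h7 : (w - t0 + 3 / 2).re = w.re - t0.re + 3 / 2 := by simp
        change (w - t0 + 3 / 2).re < x
        rw [h7, hx]
        linarith
      have h8 := h5 h6
      apply hwM
      have h9 : t0 + (w - t0 + 3 / 2) - 3 / 2 = w := by ring
      simp only [Pi.zero_apply] at h8
      rw [h9] at h8
      exact h8
    · exact h0
  have hbeta : ∀ᶠ z in nhdsWithin s {s}ᶜ, z.re < 2 - b1 :=
    nhdsWithin_le_nhds ((atq_open (2 - b1)).mem_nhds hs)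
  set D : ℂ → ℂ := fun z => G1 z * r1 (t0 + z - 3 / 2) * r2 (t0 - z + 1 / 2) -
    G2 z * r2 (t0 + z - 3 / 2) * r1 (t0 - z + 1 / 2) with hD
  have hD0 : ∀ᶠ z in nhdsWithin s {s}ᶜ, D z = 0 := by
    filter_upwards [hnz, hbeta, hXX s hs] with z hz1 hz2 hz3
    have hre : (t0 + z - 3 / 2).re < 0 := by
      have h3 : (t0 + z - 3 / 2).re = t0.re + z.re - 3 / 2 := by simp
      rw [h3]
      linarith
    rw [hM1 _ hre] at hz1
    simp only [hD]
    rw [atq_claim t0 XX M1 M2 G1 G2 r1 r2 Phi hb10 hr1 hr2 hM1 hM2 hJ1 hJ2 z hz2 hz3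
      (right_ne_zero_of_mul hz1), sub_self]
  have hDc : ContinuousAt D s := by
    have hs12 : s.re < 1 / 2 := by linarith
    have hg1 : ContinuousAt G1 s :=
      (hGd1.differentiableAt ((atq_open (1 / 2)).mem_nhds hs12)).continuousAt
    have hg2 : ContinuousAt G2 s :=
      (hGd2.differentiableAt ((atq_open (1 / 2)).mem_nhds hs12)).continuousAt
    have hl1 : Continuous fun z : ℂ => t0 + z - 3 / 2 := by fun_prop
    have hl2 : Continuous fun z : ℂ => t0 - z + 1 / 2 := by fun_prop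
    exact ((hg1.mul (hr1.continuous.comp hl1).continuousAt).mul
      (hr2.continuous.comp hl2).continuousAt).sub
      ((hg2.mul (hr2.continuous.comp hl1).continuousAt).mul
      (hr1.continuous.comp hl2).continuousAt)
  have hlim1 : Filter.Tendsto D (nhdsWithin s {s}ᶜ) (nhds (D s)) := hDc.tendsto.mono_left
    nhdsWithin_le_nhds
  have hlim2 : Filter.Tendsto D (nhdsWithin s {s}ᶜ) (nhds 0) :=
    tendsto_const_nhds.congr' (hD0.mono fun z hz => hz.symm)
  have hfin : D s = 0 := tendsto_nhds_unique hlim1 hlim2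
  simp only [hD] at hfin
  exact sub_eq_zero.1 hfin

/-- the zeros of an entire function, not identically zero, are isolated -/
private theorem atq_iso {Q : ℂ → ℂ} (hQ : Differentiable ℂ Q) (hne : ∃ s : ℂ, Q s ≠ 0) (s : ℂ) :
    ∀ᶠ z in nhdsWithin s {s}ᶜ, Q (2 - z) ≠ 0 := by
  have hd : Differentiable ℂ fun z => Q (2 - z) := hQ.comp (by fun_prop)
  have ha : AnalyticOnNhd ℂ (fun z => Q (2 - z)) Set.univ := fun z _ => hd.analyticAt z
  rcases (ha s (Set.mem_univ s)).eventually_eq_zero_or_eventually_ne_zero with h | h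
  · exfalso
    have h1 := ha.eqOn_zero_of_preconnected_of_eventuallyEq_zero isPreconnected_univ
      (Set.mem_univ s) h
    obtain ⟨w, hw⟩ := hne
    apply hw
    have h2 := h1 (Set.mem_univ (2 - w))
    simpa using h2
  · exact h

/-- the common factor of the functions `FE c s s0` -/
private noncomputable def atqX (S : SysD) (s0 : ℂ) (eta : ℂ → ℂ) (z : ℂ) : ℂ :=
  S.Ls z * ((wp z s0 - 1) ^ 2 * S.Z1 (wp z s0)) * ((ww z s0 - 1) ^ 2 * S.Z1 (1 - ww z s0)) *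
    ((S.cU : ℂ) ^ 2)⁻¹ * eta (1 - ww z s0)

private theorem atq_ww (z s0 : ℂ) : (ww z s0).re = s0.re - z.re + 1 / 2 := by
  simp [ww]

private theorem atq_wp (z s0 : ℂ) : (wp z s0).re = s0.re + z.re - 3 / 2 := by
  simp [wp]

private theorem atq_X_ne {S : SysD} (hS : IsSys0 S) {s0 : ℂ} {W b1 : ℝ} {eta : ℂ → ℂ}
    (heta : ∀ z : ℂ, W ≤ z.re → eta z ≠ 0) (hb : |W| + |s0.re| + 10 ≤ b1) {z : ℂ}
    (hz : b1 < z.re) : atqX S s0 eta z ≠ 0 := by
  have h1 := abs_nonneg s0.re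
  have h2 := neg_abs_le s0.re
  have h3 := le_abs_self s0.re
  have h4 := abs_nonneg W
  have h5 := le_abs_self W
  have h6 := atq_ww z s0
  have h7 := atq_wp z s0
  have h8 : (1 - ww z s0).re = z.re - s0.re + 1 / 2 := by
    rw [Complex.sub_re, Complex.one_re, h6]
    ring
  have h9 : wp z s0 - 1 ≠ 0 := by
    intro h
    have h10 := congrArg Complex.re h
    rw [Complex.sub_re, Complex.one_re, Complex.zero_re, h7] at h10
    linarith
  have h10 : ww z s0 - 1 ≠ 0 := by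
    intro h
    have h11 := congrArg Complex.re h
    rw [Complex.sub_re, Complex.one_re, Complex.zero_re, h6] at h11
    linarith
  unfold atqX
  refine mul_ne_zero (mul_ne_zero (mul_ne_zero (mul_ne_zero ?_ ?_) ?_) ?_) ?_
  · exact Ls_ne hS (by linarith)
  · exact mul_ne_zero (pow_ne_zero 2 h9) (Z1_ne hS (by rw [h7]; linarith))
  · exact mul_ne_zero (pow_ne_zero 2 h10) (Z1_ne hS (by rw [h8]; linarith))
  · exact inv_ne_zero (pow_ne_zero 2 (cU_ne hS))
  · exact heta _ (by rw [h8]; linarith)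

open Classical in
private theorem atq_FE {S : SysD} {T : OmD S} {s0 : ℂ} {W b1 : ℝ} {eta : ℂ → ℂ}
    (hInE : ∀ (c' : S.G) (z : ℂ), W ≤ z.re → T.InE c' z s0 = if c' = 1 then eta z else 0)
    (hb : |W| + |s0.re| + 10 ≤ b1) (c : S.G) {z : ℂ} (hz : b1 < z.re) :
    T.FE c z s0 = atqX S s0 eta z * S.M c (s0 - z + 1 / 2) := by
  have h1 := abs_nonneg s0.re
  have h3 := le_abs_self s0.re
  have h4 := abs_nonneg W
  have h5 := le_abs_self W
  have h8 : W ≤ (1 - ww z s0).re := by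
    rw [Complex.sub_re, Complex.one_re, atq_ww]
    linarith
  have hsum : ∑ c' : S.G, S.M (c * c') (ww z s0) * T.InE c' (1 - ww z s0) s0 =
      S.M c (ww z s0) * eta (1 - ww z s0) := by
    rw [Finset.sum_eq_single (1 : S.G)]
    · rw [hInE 1 _ h8, if_pos rfl, mul_one]
    · intro c' _ hc'
      rw [hInE c' _ h8, if_neg hc', mul_zero]
    · intro h
      exact absurd (Finset.mem_univ _) h
  unfold OmD.FE atqX
  rw [hsum]
  have h9 : ww z s0 = s0 - z + 1 / 2 := rfl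
  rw [h9]
  ring

theorem thmATq {S : SysD} {Q : ℂ → ℂ} (hS : IsSys0 S) (hQ : IsMul Q) (hG : IsAll S Q)
    {T : OmD S} (hT : IsOm S T) {s0 L0 : ℂ} (hs0 : s0 ∈ T.Om) (hL0 : L0 ≠ 0)
    (h0 : ∀ b c', S.R b c' → ¬ S.Sq b c' → T.e b c' s0 = 0)
    (h1 : ∀ f : S.J, T.e (2 • f) 1 s0 = L0) (c1 c2 : S.G) (hc1 : c1 ≠ 1) (hc2 : c2 ≠ 1)
    (r1 r2 Phi : ℂ → ℂ) (hr1 : Differentiable ℂ r1) (hr2 : Differentiable ℂ r2)
    (hM1 : ∀ w : ℂ, w.re < 0 → S.M c1 w = r1 w * Phi w)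
    (hM2 : ∀ w : ℂ, w.re < 0 → S.M c2 w = r2 w * Phi w)
    (hne : ∃ w : ℂ, w.re < 0 ∧ S.M c1 w ≠ 0) :
    ∃ β : ℝ, ∀ s : ℂ, s.re < β →
      S.GG c1 s * r1 (s0 + s - 3 / 2) * r2 (s0 - s + 1 / 2) =
        S.GG c2 s * r2 (s0 + s - 3 / 2) * r1 (s0 - s + 1 / 2) := by
  obtain ⟨A0, hA0, hX⟩ := thmXq hS hQ hG hT
  obtain ⟨hs1, hs2⟩ := hs0
  obtain ⟨W, eta, heta, hInE⟩ := InE_s0 hS hL0 h0 h1
  have hρ0 : 0 < (|s0.im - T.y0| + T.r) / 2 := by
    have := abs_nonneg (s0.im - T.y0)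
    have := hT.hr
    linarith
  have hm1 := le_max_left A0 s0.re
  have hm2 := le_max_right A0 s0.re
  obtain ⟨b0, hb0, hb0R, hE⟩ := hX ((T.x0 + s0.re) / 2) ((|s0.im - T.y0| + T.r) / 2)
    (max A0 s0.re + 1) (by linarith) hρ0 (by linarith) (by linarith) (by linarith)
  have hmem : s0 ∈ T.OmR ((T.x0 + s0.re) / 2) ((|s0.im - T.y0| + T.r) / 2)
      (max A0 s0.re + 1) := ⟨by linarith, by linarith, by linarith⟩
  obtain ⟨b1, hb1⟩ : ∃ b1 : ℝ, b1 = max b0 (|W| + |s0.re| + 10) := ⟨_, rfl⟩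
  have hb1a : b0 ≤ b1 := by
    rw [hb1]
    exact le_max_left _ _
  have hb1b : |W| + |s0.re| + 10 ≤ b1 := by
    rw [hb1]
    exact le_max_right _ _
  have hJ : ∀ c : S.G, c ≠ 1 → ∀ b : ℝ, b1 < b →
      ∃ J, AtqJ s0 (fun z => Q z * atqX S s0 eta z) (S.M c) (S.GG c) b1 b J := by
    intro c hc b hb
    obtain ⟨E, hE1, hE2, hE3⟩ := hE c hc b (lt_of_le_of_lt hb1a hb)
    refine ⟨fun z => E z s0, ?_, ?_, ?_⟩
    · intro z hz
      exact (hE1 id (fun _ => s0) differentiable_id (differentiable_const _) z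
        ⟨hz, hmem⟩).differentiableWithinAt
    · intro z hz1 hz2
      have h2 := hE2 z s0 (lt_of_le_of_lt hb1a hz1) hz2 hmem
      rw [atq_FE hInE hb1b c hz1] at h2
      show E z s0 = _
      rw [h2]
      ring
    · intro s hs3 hs4
      exact hE3 s s0 hs3 hs4 hmem
  refine ⟨2 - b1, fun s hs => ?_⟩
  have hW := abs_nonneg W
  exact atq_core s0 (fun z => Q z * atqX S s0 eta z) (S.M c1) (S.M c2) (S.GG c1) (S.GG c2) r1 r2 Phi
    (by linarith) (fun s' hs' => by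
      have h3 : {z : ℂ | z.re < 2 - b1} ∈ nhdsWithin s' {s'}ᶜ :=
        nhdsWithin_le_nhds ((atq_open (2 - b1)).mem_nhds hs')
      filter_upwards [atq_iso hQ.diff hQ.ne s', h3] with z hz1 hz2
      have hz3 : z.re < 2 - b1 := hz2
      refine mul_ne_zero hz1 (atq_X_ne hS heta hb1b ?_)
      have h4 : (2 - z).re = 2 - z.re := by simp
      rw [h4]
      linarith)
    (atq_Mdiff hS c1) (hG.GG_diff c1)
    (hG.GG_diff c2) hr1 hr2 hM1 hM2 hne (hJ c1 hc1) (hJ c2 hc2) s hs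

end Pool.Agent.UPQ
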