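import Pool.Agent.THF.A.Defs
import Pool.Agent.QD.A.Cau

/-!
# UPQ/A-Defs: the abstract system with a polynomial factor `Q` (see `up_h5.md`)

`S : SysD` with `IsSys0 S`; the functions `S.ell b c` are now the continuations of `Q * Ls * Lu b c`.
-/

namespace Pool.Agent.UPQ

open Pool.Agent.QD Pool.Agent.QD.SysD Pool.Agent.LD Pool.Agent.MD Pool.Agent.THF
open Pool.Agent.HWR (FinOrd)

/-- the multiplier: entire, of polynomial growth in vertical strips, not identically zero -/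
structure IsMul (Q : ℂ → ℂ) : Prop where
  diff : Differentiable ℂ Q
  bd : ∀ c : ℝ, PolyStrip c Q
  ne : ∃ s : ℂ, Q s ≠ 0

/-- the L-functions times `Q`, for all pairs which are not squares -/
structure IsAll (S : SysD) (Q : ℂ → ℂ) : Prop where
  ell_diff : ∀ b c, S.R b c → ¬ S.Sq b c → Differentiable ℂ (S.ell b c)
  ell_ord : ∀ b c, S.R b c → ¬ S.Sq b c → FinOrd (S.ell b c)
  ell_eq : ∀ b c, S.R b c → ¬ S.Sq b c → ∀ s : ℂ, 3 / 2 < s.re →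
    S.ell b c s = Q s * (S.Ls s * S.Lu b c s)
  ell_fe : ∀ b c, S.R b c → ¬ S.Sq b c → ∀ s : ℂ, s.re < 1 / 2 → S.ell b c s =
    (S.odd b : ℂ) ^ (2 * (1 - s)) * S.GG c s * S.ell b c (2 - s)
  GG_diff : ∀ c, DifferentiableOn ℂ (S.GG c) {s : ℂ | s.re < 1 / 2}
  GG_bd : ∀ c, PolyStrip (1 / 2) (S.GG c)

/-- The continuations of the series of the classes `c ≠ 1` to `Re t > R`. -/
structure IsYQ (S : SysD) (Q : ℂ → ℂ) (R : ℝ) (Y : S.G → ℂ → ℂ → ℂ) : Prop where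
  hol : ∀ c, c ≠ 1 → Hol2 {x | R < x.2.re} (Y c)
  bd : ∀ c, c ≠ 1 → ∀ a b c' d : ℝ, R < c' → PB (Y c) a b c' d
  eq : ∀ c, c ≠ 1 → ∀ s t : ℂ, R < s.re → R < t.re → Y c s t = Q s * YR S c s t
  fe : ∀ c, c ≠ 1 → ∀ s t : ℂ, s.re < 1 / 2 → R < t.re → Y c s t = S.GG c s * Y c (2 - s) t

/-- the Cauchy integral -/
noncomputable def IEg (G1 : ℂ → ℂ) (F : ℂ → ℂ → ℂ) (B : ℝ) (s t : ℂ) : ℂ :=
  (2 * Real.pi : ℂ)⁻¹ *
    ((∫ y : ℝ, F (B + y * Complex.I) t * kern (B + y * Complex.I - s)) -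
      ∫ y : ℝ, G1 (2 - B + y * Complex.I) * F (B - y * Complex.I) t *
        kern (2 - B + y * Complex.I - s))

theorem ne_sq {S : SysD} {b : S.J} {c : S.G} (hc : c ≠ 1) : ¬ S.Sq b c := fun h => hc h.1

end Pool.Agent.UPQ
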