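import Pool.Agent.UPQ.A.Defs
import Pool.Agent.QD.A.Par

/-!
# UPQ/A-I: the Cauchy integral `IEg`

`IEg_hol`: the Cauchy integral of a function of `(s, t)` which is holomorphic for `Re s > b0` and of polynomial
growth on `Re s = B` is holomorphic in both variables in the strip `2 - B < Re s < B`. `IEg_eq`: if the
function has an entire continuation in `s` with the functional equation, the integral is this continuation.
-/

namespace Pool.Agent.UPQ

open Pool.Agent.QD Pool.Agent.QD.SysD Pool.Agent.LD Pool.Agent.MD Pool.Agent.THF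

section aux

open MeasureTheory

private theorem upqi_log {A y : ℝ} (hA : 0 ≤ A) : (1 + |y|) ^ A ≤ Real.exp (A ^ 2 + y ^ 2 / 4) := by
  have h0 : 0 < 1 + |y| := by positivity
  rw [Real.rpow_def_of_pos h0]
  apply Real.exp_le_exp.2
  have h1 : Real.log (1 + |y|) ≤ |y| := by
    have := Real.log_le_sub_one_of_pos h0
    linarith
  have h2 : Real.log (1 + |y|) * A ≤ |y| * A := mul_le_mul_of_nonneg_right h1 hA
  have h3 : |y| ^ 2 = y ^ 2 := sq_abs y
  nlinarith [sq_nonneg (|y| / 2 - A)]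

private theorem upqi_dom {B δ A M : ℝ} (hδ : 0 < δ) (hA : 0 ≤ A) (hM : 0 ≤ M) {y : ℝ} {u : ℂ}
    (h1 : |u.re| ≤ B) (h2 : δ ≤ |u.re|) (h3 : |u.im - y| ≤ M) :
    (1 + |y|) ^ A * ‖kern u‖ ≤
      δ⁻¹ * Real.exp (B ^ 2) * Real.exp (A ^ 2 + M ^ 2) * Real.exp (-(1 / 4) * y ^ 2) := by
  have h4 := kern_bd B δ hδ u h1 h2
  have h5 : -(u.im ^ 2) ≤ M ^ 2 - y ^ 2 / 2 := by
    have h6 : (u.im - y) ^ 2 ≤ M ^ 2 := by
      rw [← sq_abs]
      exact pow_le_pow_left₀ (abs_nonneg _) h3 2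
    nlinarith [sq_nonneg (2 * u.im - y)]
  calc (1 + |y|) ^ A * ‖kern u‖ ≤ Real.exp (A ^ 2 + y ^ 2 / 4) *
        (δ⁻¹ * Real.exp (B ^ 2) * Real.exp (-(u.im ^ 2))) :=
        mul_le_mul (upqi_log hA) h4 (norm_nonneg _) (Real.exp_pos _).le
    _ ≤ Real.exp (A ^ 2 + y ^ 2 / 4) *
        (δ⁻¹ * Real.exp (B ^ 2) * Real.exp (M ^ 2 - y ^ 2 / 2)) := by
        have := Real.exp_le_exp.2 h5
        gcongr
    _ = δ⁻¹ * Real.exp (B ^ 2) *
        (Real.exp (A ^ 2 + y ^ 2 / 4) * Real.exp (M ^ 2 - y ^ 2 / 2)) := by ring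
    _ = δ⁻¹ * Real.exp (B ^ 2) *
        (Real.exp (A ^ 2 + M ^ 2) * Real.exp (-(1 / 4) * y ^ 2)) := by
        rw [← Real.exp_add, ← Real.exp_add]
        congr 2
        ring
    _ = _ := by ring

private theorem upqi_kern_diff {u : ℂ} (hu : u ≠ 0) : DifferentiableAt ℂ kern u := by
  unfold kern
  exact DifferentiableAt.div (by fun_prop) (by fun_prop) hu

private theorem upqi_ne {a : ℝ} {s : ℂ} (hs : s.re ≠ a) (y : ℝ) : (a : ℂ) + y * Complex.I - s ≠ 0 := by
  intro h
  have := congrArg Complex.re h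
  simp at this
  exact hs (by linarith)

private theorem upqi_kern_cont {a : ℝ} {s : ℂ} (hs : s.re ≠ a) :
    Continuous fun y : ℝ => kern (a + y * Complex.I - s) := by
  rw [continuous_iff_continuousAt]
  intro y
  have h1 : ContinuousAt kern ((a : ℂ) + y * Complex.I - s) :=
    (upqi_kern_diff (upqi_ne hs y)).continuousAt
  have h2 : ContinuousAt (fun y : ℝ => (a : ℂ) + y * Complex.I - s) y := by fun_prop
  exact ContinuousAt.comp (f := fun y : ℝ => (a : ℂ) + y * Complex.I - s) h1 h2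

private theorem upqi_int {U : Set ℂ} (hU : IsOpen U) {W : ℂ → ℝ → ℂ} {σ : ℂ → ℂ}
    (hσ : Differentiable ℂ σ)
    (hd : ∀ y, DifferentiableOn ℂ (fun z => W z y) U) (hc : ∀ z ∈ U, Continuous (W z)) {A C : ℝ}
    (hA : 0 ≤ A) (hC : 0 ≤ C) (hb : ∀ z ∈ U, ∀ y, ‖W z y‖ ≤ C * (1 + |y|) ^ A) {a : ℝ}
    (hs : ∀ z ∈ U, (σ z).re ≠ a) :
    DifferentiableOn ℂ (fun z => ∫ y : ℝ, W z y * kern (a + y * Complex.I - σ z)) U := by
  refine diff_integral hU (fun y => ?_)
    (fun z hz => ((hc z hz).mul (upqi_kern_cont (hs z hz))).aestronglyMeasurable) (fun z hz => ?_)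
  · refine (hd y).mul fun z hz => ?_
    have h1 : DifferentiableAt ℂ (fun z : ℂ => kern ((a : ℂ) + y * Complex.I - σ z)) z :=
      DifferentiableAt.comp z (g := kern) (f := fun z : ℂ => (a : ℂ) + y * Complex.I - σ z)
        (upqi_kern_diff (upqi_ne (hs z hz) y)) ((differentiableAt_const _).sub (hσ z))
    exact h1.differentiableWithinAt
  · have hδ : 0 < |a - (σ z).re| := abs_pos.2 (sub_ne_zero.2 (hs z hz).symm)
    obtain ⟨ρ, hρ, hball⟩ := Metric.continuousAt_iff.1 (hσ z).continuousAt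
      (|a - (σ z).re| / 2) (by positivity)
    refine ⟨ρ, hρ, fun y => C * ((|a - (σ z).re| / 2)⁻¹ *
      Real.exp ((2 * |a - (σ z).re|) ^ 2) *
      Real.exp (A ^ 2 + (|(σ z).im| + |a - (σ z).re|) ^ 2) * Real.exp (-(1 / 4) * y ^ 2)), ?_, ?_⟩
    · exact ((integrable_exp_neg_mul_sq (by norm_num)).const_mul _).const_mul _
    · intro z' hz1 hz2 y
      rw [norm_mul]
      have h2 : ‖σ z' - σ z‖ < |a - (σ z).re| / 2 := by
        rw [← dist_eq_norm]
        exact hball (Metric.mem_ball.1 hz1)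
      have h3 : |(σ z').re - (σ z).re| < |a - (σ z).re| / 2 := by
        have := Complex.abs_re_le_norm (σ z' - σ z)
        rw [Complex.sub_re] at this
        linarith
      have h4 : |(σ z').im - (σ z).im| < |a - (σ z).re| / 2 := by
        have := Complex.abs_im_le_norm (σ z' - σ z)
        rw [Complex.sub_im] at this
        linarith
      have hre : (a + y * Complex.I - σ z').re = (a - (σ z).re) - ((σ z').re - (σ z).re) := by simp
      have him : (a + y * Complex.I - σ z').im - y = -((σ z').im - (σ z).im) - (σ z).im := by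
        simp
      have h1 := upqi_dom (B := 2 * |a - (σ z).re|) (δ := |a - (σ z).re| / 2) (y := y)
        (u := a + y * Complex.I - σ z') (M := |(σ z).im| + |a - (σ z).re|)
        (by positivity) hA (by positivity)
        (by
          rw [hre]
          have := abs_sub (a - (σ z).re) ((σ z').re - (σ z).re)
          linarith)
        (by
          rw [hre]
          have := abs_sub_abs_le_abs_sub (a - (σ z).re) ((σ z').re - (σ z).re)
          linarith)
        (by
          rw [him]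
          have := abs_sub (-((σ z').im - (σ z).im)) (σ z).im
          rw [abs_neg] at this
          linarith)
      calc ‖W z' y‖ * ‖kern (a + y * Complex.I - σ z')‖ ≤
          (C * (1 + |y|) ^ A) * ‖kern (a + y * Complex.I - σ z')‖ :=
            mul_le_mul_of_nonneg_right (hb z' hz2 y) (norm_nonneg _)
        _ = C * ((1 + |y|) ^ A * ‖kern (a + y * Complex.I - σ z')‖) := by ring
        _ ≤ _ := mul_le_mul_of_nonneg_left h1 hC

end aux

private theorem upqi_re1 (b y : ℝ) : ((b : ℂ) + y * Complex.I).re = b := by simp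

private theorem upqi_re2 (b y : ℝ) : ((b : ℂ) - y * Complex.I).re = b := by simp

private theorem upqi_cast (b : ℝ) : (2 - (b : ℂ)) = ((2 - b : ℝ) : ℂ) := by push_cast; ring

private theorem upqi_GG {G1 : ℂ → ℂ} (hGd : DifferentiableOn ℂ G1 {s : ℂ | s.re < 1 / 2})
    {a : ℝ} (ha : a < 1 / 2) : Continuous fun y : ℝ => G1 (a + y * Complex.I) :=
  hGd.continuousOn.comp_continuous (f := fun y : ℝ => (a : ℂ) + y * Complex.I) (by fun_prop)
    (fun y => by
      show ((a : ℂ) + y * Complex.I).re < 1 / 2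
      rw [upqi_re1]
      exact ha)

/-- continuity in the first variable along `y ↦ B + e y i` -/
private theorem upqi_cont {f : ℂ → ℂ → ℂ} {V : Set ℂ} {b0 B : ℝ} (hB : b0 < B)
    (hH : Hol2 {x : ℂ × ℂ | b0 < x.1.re ∧ x.2 ∈ V} f) {t : ℂ} (ht : t ∈ V) {e : ℂ} (he : e.im = 0) :
    Continuous fun y : ℝ => f (B + e * (y * Complex.I)) t := by
  rw [continuous_iff_continuousAt]
  intro y
  have h1 : DifferentiableAt ℂ (fun z : ℂ => f ((B : ℂ) + e * (z * Complex.I)) t) (y : ℂ) := by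
    refine hH (fun z => (B : ℂ) + e * (z * Complex.I)) (fun _ => t) (by fun_prop) (by fun_prop) _
      ⟨?_, ht⟩
    show b0 < ((B : ℂ) + e * ((y : ℂ) * Complex.I)).re
    have : ((B : ℂ) + e * ((y : ℂ) * Complex.I)).re = B := by
      simp [he]
    rw [this]
    exact hB
  exact ContinuousAt.comp (f := fun y : ℝ => (y : ℂ)) h1.continuousAt
    Complex.continuous_ofReal.continuousAt

theorem IEg_hol {G1 : ℂ → ℂ} {F : ℂ → ℂ → ℂ} (hGd : DifferentiableOn ℂ G1 {s : ℂ | s.re < 1 / 2})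
    (hGb : PolyStrip (1 / 2) G1) {O : Set ℂ} (hO : IsOpen O) {b0 B : ℝ} (hb0 : 10 ≤ b0)
    (hB : b0 < B) (hH : Hol2 {x : ℂ × ℂ | b0 < x.1.re ∧ x.2 ∈ O} F)
    (hbd : ∃ A C : ℝ, 0 ≤ A ∧ 0 ≤ C ∧ ∀ s t : ℂ, s.re = B → t ∈ O →
      ‖F s t‖ ≤ C * (1 + |s.im|) ^ A) :
    Hol2 {x : ℂ × ℂ | (2 - B < x.1.re ∧ x.1.re < B) ∧ x.2 ∈ O} (IEg G1 F B) := by
  intro σ τ hσ hτ z0 hz0
  obtain ⟨A, C, hA, hC, hbd⟩ := hbd
  obtain ⟨A', C', hA', hC', hG⟩ := hGb (2 - B) (2 - B) (by linarith)
  have hU : IsOpen {z : ℂ | (2 - B < (σ z).re ∧ (σ z).re < B) ∧ τ z ∈ O} := by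
    have h1 : Continuous fun z => (σ z).re := Complex.continuous_re.comp hσ.continuous
    exact ((isOpen_lt continuous_const h1).inter (isOpen_lt h1 continuous_const)).inter
      (hO.preimage hτ.continuous)
  set U : Set ℂ := {z : ℂ | (2 - B < (σ z).re ∧ (σ z).re < B) ∧ τ z ∈ O} with hUd
  have hdif : ∀ w : ℂ, w.re = B → DifferentiableOn ℂ (fun z => F w (τ z)) U := by
    intro w hw z hz
    exact (hH (fun _ => w) τ (by fun_prop) hτ z ⟨by
      show b0 < w.re
      rw [hw]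
      exact hB, hz.2⟩).differentiableWithinAt
  have hc1 : ∀ z ∈ U, Continuous fun y : ℝ => F (B + y * Complex.I) (τ z) := by
    intro z hz
    have h1 := upqi_cont hB hH hz.2 (e := 1) (by simp)
    simpa using h1
  have hc2 : ∀ z ∈ U, Continuous fun y : ℝ => F (B - y * Complex.I) (τ z) := by
    intro z hz
    have h1 := upqi_cont hB hH hz.2 (e := -1) (by simp)
    simpa [sub_eq_add_neg] using h1
  have I1 : DifferentiableOn ℂ (fun z => ∫ y : ℝ, F (B + y * Complex.I) (τ z) *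
      kern (B + y * Complex.I - σ z)) U := by
    refine upqi_int hU (W := fun z y => F (B + y * Complex.I) (τ z)) hσ
      (fun y => hdif _ (upqi_re1 B y)) hc1 hA hC (fun z hz y => ?_) (fun z hz => hz.1.2.ne)
    have h1 := hbd (B + y * Complex.I) (τ z) (upqi_re1 B y) hz.2
    simpa using h1
  have I2 : DifferentiableOn ℂ (fun z => ∫ y : ℝ, G1 (2 - B + y * Complex.I) *
      F (B - y * Complex.I) (τ z) * kern (2 - B + y * Complex.I - σ z)) U := by
    simp only [upqi_cast B]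
    refine upqi_int hU (W := fun z y => G1 (((2 - B : ℝ) : ℂ) + y * Complex.I) *
      F (B - y * Complex.I) (τ z)) hσ
      (fun y => (hdif _ (upqi_re2 B y)).const_mul _)
      (fun z hz => (upqi_GG hGd (by linarith)).mul (hc2 z hz)) (A := A' + A) (C := C' * C)
      (by positivity) (by positivity) (fun z hz y => ?_) (fun z hz => hz.1.1.ne')
    rw [norm_mul]
    have h1 := hbd (B - y * Complex.I) (τ z) (upqi_re2 B y) hz.2
    have h2 := hG (((2 - B : ℝ) : ℂ) + y * Complex.I) (by rw [upqi_re1]) (by rw [upqi_re1])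
    have h3 : (((2 - B : ℝ) : ℂ) + y * Complex.I).im = y := by simp
    have h4 : |((B : ℂ) - y * Complex.I).im| = |y| := by simp
    rw [h3] at h2
    rw [h4] at h1
    have h0 : 0 < 1 + |y| := by positivity
    rw [Real.rpow_add h0]
    calc _ ≤ (C' * (1 + |y|) ^ A') * (C * (1 + |y|) ^ A) :=
          mul_le_mul h2 h1 (norm_nonneg _) (by positivity)
      _ = _ := by ring
  have hfin : DifferentiableOn ℂ (fun z => IEg G1 F B (σ z) (τ z)) U := by
    unfold IEg
    exact (I1.sub I2).const_mul _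
  exact hfin.differentiableAt (hU.mem_nhds hz0)

theorem IEg_eq {G1 : ℂ → ℂ} {F : ℂ → ℂ → ℂ} {f : ℂ → ℂ} {b0 B : ℝ} (hb0 : 2 ≤ b0) (hB : b0 < B)
    {t : ℂ} (hf : Differentiable ℂ f)
    (hbd : ∃ A C : ℝ, 0 ≤ A ∧ 0 ≤ C ∧ ∀ z : ℂ, 2 - B ≤ z.re → z.re ≤ B →
      ‖f z‖ ≤ C * (1 + |z.im|) ^ A)
    (hF : ∀ s : ℂ, b0 < s.re → F s t = f s)
    (hfe : ∀ s : ℂ, s.re < 1 / 2 → f s = G1 s * f (2 - s)) {s : ℂ}
    (hs1 : 2 - B < s.re) (hs2 : s.re < B) : IEg G1 F B s t = f s := by
  obtain ⟨A, C, hA, hC, hbd⟩ := hbd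
  have key := strip_cauchy (f := f) (α := 2 - B) (β := B) (α' := 1 - B) (β' := B + 1) (by linarith)
    (by linarith) (by linarith) hf.differentiableOn hA (C := C)
    (fun z h1 h2 => hbd z h1 h2) hs1 hs2
  rw [key]
  unfold IEg
  congr 2
  · congr 1
    funext y
    rw [hF _ (by simp; exact hB)]
  · congr 1
    funext y
    rw [upqi_cast B]
    have h1 := hfe (((2 - B : ℝ) : ℂ) + y * Complex.I) (by simp; linarith)
    have h2 : (2 : ℂ) - (((2 - B : ℝ) : ℂ) + y * Complex.I) = (B : ℂ) - y * Complex.I := by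
      push_cast
      ring
    rw [h2] at h1
    rw [h1, hF _ (by simp; exact hB)]

end Pool.Agent.UPQ
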