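import Pool.Agent.UPQ.A.Bd

/-!
# UPQ/A-Om: the data `OmD` from `ell` and the square function

`e b c t` is `g t` for the squares and `P t * ell b c t` otherwise, on a half strip in `1/2 < Re t`.
-/

namespace Pool.Agent.UPQ

open Pool.Agent.QD Pool.Agent.QD.SysD Pool.Agent.LD Pool.Agent.MD Pool.Agent.THF

private theorem Om_Lu {S : SysD} (hS : IsSys0 S) {b : S.J} {c : S.G} (h : S.Sq b c) (s : ℂ) :
    S.Lu b c s = S.Ls s := by
  obtain ⟨rfl, hb⟩ := h
  have h1 : b = 2 • (b.mapRange (fun k => k / 2) (by norm_num) : S.J) := by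
    refine Finsupp.ext fun v => ?_
    rw [Finsupp.smul_apply, Finsupp.mapRange_apply, smul_eq_mul]
    obtain ⟨k, hk⟩ := hb v
    omega
  unfold SysD.Lu SysD.Ls
  refine tprod_congr fun v => ?_
  rw [h1, hS.u_two]

theorem exists_OmQ {S : SysD} {Q P g : ℂ → ℂ} (hS : IsSys0 S) (hQ : IsMul Q) (hG : IsAll S Q)
    (hP : Differentiable ℂ P) (hg : DifferentiableOn ℂ g {t : ℂ | 1 / 2 < t.re})
    (hge : ∀ t : ℂ, 3 / 2 < t.re → g t = P t * Q t * S.Ls t ^ 2) (y0 : ℝ) :
    ∃ T : OmD S, T.x0 = 1 / 2 ∧ T.y0 = y0 ∧ T.r = 1 ∧ IsOm S T ∧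
      (∀ b c, S.R b c → ¬ S.Sq b c → ∀ t : ℂ, T.e b c t = P t * S.ell b c t) ∧
      ∀ (f : S.J) (t : ℂ), T.e (2 • f) 1 t = g t := by
  classical
  let T : OmD S :=
    { x0 := 1 / 2
      y0 := y0
      r := 1
      om := fun t => P t * Q t
      e := fun b c t => if S.Sq b c then g t else P t * S.ell b c t }
  have hsub : T.Om ⊆ {t : ℂ | 1 / 2 < t.re} := fun t ht => ht.1
  have heS : ∀ b c, S.Sq b c → T.e b c = g := fun b c h => funext fun t => if_pos h
  have heN : ∀ b c, ¬ S.Sq b c → T.e b c = fun t => P t * S.ell b c t :=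
    fun b c h => funext fun t => if_neg h
  have hSq : ∀ f : S.J, S.Sq (2 • f) 1 := fun f => ⟨rfl, fun v => by
    rw [Finsupp.smul_apply, smul_eq_mul]
    exact even_two_mul _⟩
  refine ⟨T, rfl, rfl, rfl, ⟨one_pos, ?_, ?_, ?_, ?_⟩, fun b c _ h t => congrFun (heN b c h) t,
    fun f t => congrFun (heS _ _ (hSq f)) t⟩
  · exact (hP.mul hQ.diff).differentiableOn
  · intro b c hb
    by_cases h : S.Sq b c
    · rw [heS b c h]
      exact hg.mono hsub
    · rw [heN b c h]
      exact (hP.mul (hG.ell_diff b c hb h)).differentiableOn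
  · intro b c hb t _ ht
    by_cases h : S.Sq b c
    · rw [heS b c h, hge t ht, Om_Lu hS h]
      change _ = P t * Q t * _
      ring
    · rw [heN b c h]
      change P t * S.ell b c t = P t * Q t * _
      rw [hG.ell_eq b c hb h t ht]
      ring
  · intro K hK hKT
    obtain ⟨CP, hCP⟩ := hK.exists_bound_of_continuousOn hP.continuous.continuousOn
    obtain ⟨Cg, hCg⟩ := hK.exists_bound_of_continuousOn (hg.continuousOn.mono (hKT.trans hsub))
    obtain ⟨Cr, hCr⟩ := hK.exists_bound_of_continuousOn Complex.continuous_re.continuousOn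
    obtain ⟨Ci, hCi⟩ := hK.exists_bound_of_continuousOn Complex.continuous_im.continuousOn
    obtain ⟨A, C, hA, hC, hbd⟩ := ellq_bd hS hQ hG (max Cr 0) (le_max_right _ _)
    refine ⟨A, |Cg| + |CP| * (C * (1 + |Ci|) ^ A), hA, by positivity, ?_⟩
    intro b c hb t ht
    have hn1 : (1 : ℝ) ≤ S.nJ b := by
      exact_mod_cast nJ_pos hS b
    have hnA : (1 : ℝ) ≤ (S.nJ b : ℝ) ^ A := Real.one_le_rpow hn1 hA
    by_cases h : S.Sq b c
    · rw [heS b c h]
      have h1 : ‖g t‖ ≤ |Cg| := (hCg t ht).trans (le_abs_self _)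
      have h2 : (0 : ℝ) ≤ |CP| * (C * (1 + |Ci|) ^ A) := by positivity
      calc ‖g t‖ ≤ (|Cg| + |CP| * (C * (1 + |Ci|) ^ A)) * 1 := by linarith
        _ ≤ _ := mul_le_mul_of_nonneg_left hnA (by positivity)
    · rw [heN b c h]
      change ‖P t * S.ell b c t‖ ≤ _
      rw [norm_mul]
      have h1 : ‖P t‖ ≤ |CP| := (hCP t ht).trans (le_abs_self _)
      have h2 := hbd b c hb h t ((hCr t ht).trans (le_max_left _ _))
      have h3 : |t.im| ≤ |Ci| := (hCi t ht).trans (le_abs_self _)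
      have h4 : (1 + |t.im|) ^ A ≤ (1 + |Ci|) ^ A :=
        Real.rpow_le_rpow (by positivity) (by linarith) hA
      have h5 : ‖S.ell b c t‖ ≤ C * (S.nJ b : ℝ) ^ A * (1 + |Ci|) ^ A :=
        h2.trans (mul_le_mul_of_nonneg_left h4 (by positivity))
      calc ‖P t‖ * ‖S.ell b c t‖ ≤ |CP| * (C * (S.nJ b : ℝ) ^ A * (1 + |Ci|) ^ A) :=
            mul_le_mul h1 h5 (norm_nonneg _) (abs_nonneg _)
        _ = (|CP| * (C * (1 + |Ci|) ^ A)) * (S.nJ b : ℝ) ^ A := by ring
        _ ≤ _ := by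
            refine mul_le_mul_of_nonneg_right ?_ (by positivity)
            have := abs_nonneg Cg
            linarith

end Pool.Agent.UPQ
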