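import Pool.Agent.UPQ.A.AT
import Pool.Agent.UPQ.A.Om

/-!
# UPQ/A-Main: the abstract theorem
-/

namespace Pool.Agent.UPQ

open Pool.Agent.QD Pool.Agent.QD.SysD Pool.Agent.LD Pool.Agent.MD Pool.Agent.THF

theorem abs_main {S : SysD} {Q P g : ℂ → ℂ} (hS : IsSys0 S) (hQ : IsMul Q) (hG : IsAll S Q)
    (hP : Differentiable ℂ P) (hg : DifferentiableOn ℂ g {t : ℂ | 1 / 2 < t.re})
    (hge : ∀ t : ℂ, 3 / 2 < t.re → g t = P t * Q t * S.Ls t ^ 2) {t0 : ℂ} (ht0 : 1 / 2 < t0.re)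
    (hP0 : P t0 = 0) (hg0 : g t0 ≠ 0) (c1 c2 : S.G) (hc1 : c1 ≠ 1) (hc2 : c2 ≠ 1)
    (r1 r2 Phi : ℂ → ℂ) (hr1 : Differentiable ℂ r1) (hr2 : Differentiable ℂ r2)
    (hM1 : ∀ w : ℂ, w.re < 0 → S.M c1 w = r1 w * Phi w)
    (hM2 : ∀ w : ℂ, w.re < 0 → S.M c2 w = r2 w * Phi w)
    (hne : ∃ w : ℂ, w.re < 0 ∧ S.M c1 w ≠ 0) :
    ∃ β : ℝ, ∀ s : ℂ, s.re < β →
      S.GG c1 s * r1 (t0 + s - 3 / 2) * r2 (t0 - s + 1 / 2) =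
        S.GG c2 s * r2 (t0 + s - 3 / 2) * r1 (t0 - s + 1 / 2) := by
  obtain ⟨T, hx, hy, hr, hOm, he1, he2⟩ := exists_OmQ hS hQ hG hP hg hge t0.im
  have hs0 : t0 ∈ T.Om := by
    refine ⟨by rw [hx]; exact ht0, ?_⟩
    rw [hy, hr, sub_self, abs_zero]
    exact one_pos
  refine thmATq hS hQ hG hOm hs0 hg0 ?_ ?_ c1 c2 hc1 hc2 r1 r2 Phi hr1 hr2 hM1 hM2 hne
  · intro b c hb hn
    rw [he1 b c hb hn, hP0, zero_mul]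
  · intro f
    exact he2 f t0

end Pool.Agent.UPQ
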