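import Pool.Agent.UPQ.A.Bd
import Pool.Agent.LD.A.Util
import Pool.Agent.LD.A.Dbl

/-!
# UPQ/A-V: the series `VV` for `Re t` large

PLAN.  Copy MD/A/VA.lean and MD/A/VB.lean with `c ∈ Kn` replaced by `c ≠ 1` (`ne_sq : c ≠ 1 → ¬ S.Sq b c`), `LL_bd`, `LL_diff`, `LL_fe` by `LLq_bd`, `LLq_diff`, `LLq_fe`.  In `VVq_eq`: `hG.ell_eq` has the factor `Q s`: the identity of MD/A/VB multiplied by `Q s`
(`e2`: `Q s * (S.Ls s * ∑' ...) = ∑' ...`).
-/

namespace Pool.Agent.UPQ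

open Pool.Agent.QD Pool.Agent.QD.SysD Pool.Agent.LD Pool.Agent.MD Pool.Agent.THF

variable {S : SysD} {Q : ℂ → ℂ}

open Classical in
private noncomputable def upqv_tm (S : SysD) (c : S.G) (b : S.J) (s t : ℂ) : ℂ :=
  if S.R b c then S.LL b c s * (S.nJ b : ℂ) ^ (-(ww s t)) else 0

private theorem upqv_ww_re (s t : ℂ) : (ww s t).re = t.re - s.re + 1 / 2 := by
  unfold ww
  simp

private theorem upqv_wp_re (s t : ℂ) : (wp s t).re = t.re + s.re - 3 / 2 := by
  unfold wp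
  simp

private theorem upqv_tm_bd (hS : IsSys0 S) {c : S.G} (hc : c ≠ 1) {B A C : ℝ} (hC : 0 ≤ C)
    (hLL : ∀ b c, S.R b c → ¬ S.Sq b c → ∀ s : ℂ, |s.re| ≤ B →
      ‖S.LL b c s‖ ≤ C * (S.nJ b : ℝ) ^ A * (1 + |s.im|) ^ A)
    {s t : ℂ} (hs : |s.re| ≤ B) (ht : A + 2 ≤ t.re - s.re + 1 / 2) (b : S.J) :
    ‖upqv_tm S c b s t‖ ≤ C * (1 + |s.im|) ^ A * (S.nJ b : ℝ) ^ (-(2 : ℝ)) := by
  have hb : (1 : ℝ) ≤ S.nJ b := by exact_mod_cast nJ_pos hS b
  have hb0 : (0 : ℝ) < S.nJ b := by linarith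
  have him : (0 : ℝ) < 1 + |s.im| := by positivity
  unfold upqv_tm
  split_ifs with hR
  · rw [norm_mul, nJ_cpow_norm hS]
    have h1 := hLL b c hR (ne_sq hc) s hs
    have h2 : (-(ww s t)).re = -(t.re - s.re + 1 / 2) := by rw [Complex.neg_re, upqv_ww_re]
    rw [h2]
    calc ‖S.LL b c s‖ * (S.nJ b : ℝ) ^ (-(t.re - s.re + 1 / 2))
        ≤ (C * (S.nJ b : ℝ) ^ A * (1 + |s.im|) ^ A) * (S.nJ b : ℝ) ^ (-(A + 2)) := by
          apply mul_le_mul h1 _ (by positivity) (by positivity)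
          exact Real.rpow_le_rpow_of_exponent_le hb (by linarith)
      _ = C * (1 + |s.im|) ^ A * ((S.nJ b : ℝ) ^ A * (S.nJ b : ℝ) ^ (-(A + 2))) := by ring
      _ = C * (1 + |s.im|) ^ A * (S.nJ b : ℝ) ^ (-(2 : ℝ)) := by
          rw [← Real.rpow_add hb0]
          congr 2
          ring
  · rw [norm_zero]
    positivity

private theorem upqv_tm_diff (hS : IsSys0 S) (hG : IsAll S Q) {c : S.G} (hc : c ≠ 1) (b : S.J)
    {σ τ : ℂ → ℂ} (hσ : Differentiable ℂ σ) (hτ : Differentiable ℂ τ) :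
    Differentiable ℂ fun z => upqv_tm S c b (σ z) (τ z) := by
  have hb0 : (S.nJ b : ℂ) ≠ 0 := by
    have := nJ_pos hS b
    exact_mod_cast this.ne'
  unfold upqv_tm
  split_ifs with hR
  · apply ((LLq_diff hS hG b c hR (ne_sq hc)).comp hσ).mul
    apply Differentiable.const_cpow
    · unfold ww
      exact ((hτ.sub hσ).add_const _).neg
    · exact Or.inl hb0
  · exact differentiable_const _

theorem VVq_hol (hS : IsSys0 S) (hQ : IsMul Q) (hG : IsAll S Q) (B : ℝ) (hB : 0 ≤ B) :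
    ∃ R0 : ℝ, ∀ c : S.G, c ≠ 1 →
      Hol2 {x | -B < x.1.re ∧ x.1.re < B ∧ R0 < x.2.re} (VV S c) ∧
      ∀ a b c' d : ℝ, -B < a → b < B → R0 < c' → PB (VV S c) a b c' d := by
  obtain ⟨A, C, hA, hC, hLL⟩ := LLq_bd hS hQ hG B hB
  refine ⟨A + 2 * B + 20, fun c hc => ⟨?_, ?_⟩⟩
  · -- holomorphy
    have hopen : ∀ r : ℝ, IsOpen {w : ℂ | r < w.re} := fun r =>
      isOpen_lt continuous_const Complex.continuous_re
    have hsq : Differentiable ℂ fun w : ℂ => (w - 1) ^ 2 := by fun_prop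
    have h1 : Hol2 {x | -B < x.1.re ∧ x.1.re < B ∧ A + 2 * B + 20 < x.2.re}
        (fun _ t => S.Ls t) :=
      (Hol2.comp1 (hopen (3 / 2)) (Ls_diff hS) hol2_snd).mono (by
        rintro x ⟨h1, h2, h3⟩
        change 3 / 2 < x.2.re
        linarith)
    have hf : DifferentiableOn ℂ (fun w : ℂ => (w - 1) ^ 2 * S.Z1 w) {w : ℂ | 1 < w.re} :=
      hsq.differentiableOn.mul (Z1_diff hS)
    have h2 : Hol2 {x | -B < x.1.re ∧ x.1.re < B ∧ A + 2 * B + 20 < x.2.re}
        (fun s t => (ww s t - 1) ^ 2 * S.Z1 (ww s t)) :=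
      (Hol2.comp1 (hopen 1) hf hol2_ww).mono (by
        rintro x ⟨h1, h2, h3⟩
        change 1 < (ww x.1 x.2).re
        rw [upqv_ww_re]
        linarith)
    have h3 : Hol2 {x | -B < x.1.re ∧ x.1.re < B ∧ A + 2 * B + 20 < x.2.re}
        (fun s t => (wp s t - 1) ^ 2 * S.Z1 (wp s t)) :=
      (Hol2.comp1 (hopen 1) hf hol2_wp).mono (by
        rintro x ⟨h1, h2, h3⟩
        change 1 < (wp x.1 x.2).re
        rw [upqv_wp_re]
        linarith)
    have h4 : Hol2 {x | -B < x.1.re ∧ x.1.re < B ∧ A + 2 * B + 20 < x.2.re}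
        (fun s t => ∑' b : S.J, upqv_tm S c b s t) := by
      rintro σ τ hσ hτ z0 ⟨hz1, hz2, hz3⟩
      have hz1' : -B < (σ z0).re := hz1
      have hz2' : (σ z0).re < B := hz2
      have hz3' : A + 2 * B + 20 < (τ z0).re := hz3
      let U : Set ℂ := ({z : ℂ | -B < (σ z).re} ∩ {z : ℂ | (σ z).re < B}) ∩
        ({z : ℂ | A + 2 * B + 20 < (τ z).re} ∩ {z : ℂ | |(σ z).im| < |(σ z0).im| + 1})
      have cσ := hσ.continuous
      have cτ := hτ.continuous
      have hU : IsOpen U := by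
        apply IsOpen.inter
        · apply IsOpen.inter
          · exact isOpen_lt continuous_const (Complex.continuous_re.comp cσ)
          · exact isOpen_lt (Complex.continuous_re.comp cσ) continuous_const
        · apply IsOpen.inter
          · exact isOpen_lt continuous_const (Complex.continuous_re.comp cτ)
          · exact isOpen_lt ((Complex.continuous_im.comp cσ).abs) continuous_const
      have hz0U : z0 ∈ U := ⟨⟨hz1', hz2'⟩, ⟨hz3', by
        change |(σ z0).im| < |(σ z0).im| + 1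
        linarith⟩⟩
      have hsum : Summable fun b : S.J =>
          C * (1 + (|(σ z0).im| + 1)) ^ A * (S.nJ b : ℝ) ^ (-(2 : ℝ)) :=
        (summable_nJ hS (by norm_num)).mul_left _
      have hd : DifferentiableOn ℂ (fun z => ∑' b, upqv_tm S c b (σ z) (τ z)) U := by
        refine Complex.differentiableOn_tsum_of_summable_norm hsum
          (fun b => (upqv_tm_diff hS hG hc b hσ hτ).differentiableOn) hU ?_
        rintro b z ⟨⟨hs1, hs2⟩, ⟨hs3, hs4⟩⟩
        have hs1' : -B < (σ z).re := hs1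
        have hs2' : (σ z).re < B := hs2
        have hs3' : A + 2 * B + 20 < (τ z).re := hs3
        have hs4' : |(σ z).im| < |(σ z0).im| + 1 := hs4
        refine (upqv_tm_bd hS hc hC hLL (abs_le.2 ⟨hs1'.le, hs2'.le⟩) (by linarith) b).trans ?_
        gcongr
      exact hd.differentiableAt (hU.mem_nhds hz0U)
    exact ((h1.mul h2).mul h3).mul h4
  · -- growth
    intro a b c' d ha hb hc'
    obtain ⟨CZ, hCZ, hZ⟩ := Z1_bd hS (c := 2) (by norm_num)
    obtain ⟨CL, hCL, hL⟩ := Ls_bd hS (c := 2) (by norm_num)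
    set K : ℝ := ∑' b : S.J, (S.nJ b : ℝ) ^ (-(2 : ℝ)) with hK
    have hsumK : Summable fun b : S.J => (S.nJ b : ℝ) ^ (-(2 : ℝ)) := summable_nJ hS (by norm_num)
    have hK0 : 0 ≤ K := tsum_nonneg fun b => by positivity
    have p1 : PB (fun _ t => S.Ls t) a b c' d :=
      PB.of_bdd ⟨CL, fun s t h1 h2 h3 h4 => hL t (by linarith)⟩
    have p2 : PB (fun s t => (ww s t - 1) ^ 2) a b c' d :=
      PB.comp_ww (f := fun w => (w - 1) ^ 2) (lin_pow_bd 2 1 (c' - b + 1 / 2) (d - a + 1 / 2))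
        le_rfl le_rfl
    have p3 : PB (fun s t => S.Z1 (ww s t)) a b c' d :=
      PB.of_bdd ⟨CZ, fun s t h1 h2 h3 h4 => hZ _ (by rw [upqv_ww_re]; linarith)⟩
    have p4 : PB (fun s t => (wp s t - 1) ^ 2) a b c' d :=
      PB.comp_wp (f := fun w => (w - 1) ^ 2) (lin_pow_bd 2 1 (a + c' - 3 / 2) (b + d - 3 / 2))
        le_rfl le_rfl
    have p5 : PB (fun s t => S.Z1 (wp s t)) a b c' d :=
      PB.of_bdd ⟨CZ, fun s t h1 h2 h3 h4 => hZ _ (by rw [upqv_wp_re]; linarith)⟩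
    have p6 : PB (fun s t => ∑' b : S.J, upqv_tm S c b s t) a b c' d := by
      refine ⟨A, C * K, hA, by positivity, fun s t h1 h2 h3 h4 => ?_⟩
      have hser : ‖∑' b, upqv_tm S c b s t‖ ≤ C * (1 + |s.im|) ^ A * K := by
        rw [hK, ← tsum_mul_left]
        refine tsum_of_norm_bounded (hsumK.mul_left _).hasSum fun b' => ?_
        exact upqv_tm_bd hS hc hC hLL (abs_le.2 ⟨by linarith, by linarith⟩) (by linarith) b'
      calc ‖∑' b, upqv_tm S c b s t‖ ≤ C * (1 + |s.im|) ^ A * K := hser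
        _ = C * K * (1 + |s.im|) ^ A := by ring
        _ ≤ C * K * (1 + |s.im| + |t.im|) ^ A := by
            apply mul_le_mul_of_nonneg_left _ (by positivity)
            apply Real.rpow_le_rpow (by positivity) _ hA
            linarith [abs_nonneg t.im]
    exact ((p1.mul (p2.mul p3)).mul (p4.mul p5)).mul p6

theorem VVq_eq (hS : IsSys0 S) (hQ : IsMul Q) (hG : IsAll S Q) (B : ℝ) (hB : 0 ≤ B) :
    ∃ R0 : ℝ, ∀ c : S.G, c ≠ 1 →
      ∀ s t : ℂ, 6 < s.re → s.re < B → R0 < t.re → VV S c s t = Q s * YR S c s t := by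
  classical
  refine ⟨B + 20, fun c hc s t hs1 hs2 ht => ?_⟩
  have hw : 1 < (ww s t).re := by
    have h1 : (ww s t).re = t.re - s.re + 1 / 2 := by simp [ww]
    rw [h1]
    linarith
  unfold VV YR Pi2 FF
  simp only [DD_eq hS _ c hw]
  have e1 : ∀ m : S.J, (S.nJ m : ℂ) ^ (-s) * ((ww s t - 1) ^ 2 * S.Z1 (ww s t) *
      S.D m c (ww s t)) = ((ww s t - 1) ^ 2 * S.Z1 (ww s t)) *
      ((S.nJ m : ℂ) ^ (-s) * S.D m c (ww s t)) := fun m => by ring
  simp only [e1]
  rw [tsum_mul_left, fubini_D hS c (s := s) (by linarith) hw]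
  have e2 : Q s * (S.Ls s * (∑' b : S.J, @ite ℂ (S.R b c) (Classical.propDecidable _)
      (S.AA b c s * (S.nJ b : ℂ) ^ (-(ww s t))) 0)) = ∑' b : S.J, if S.R b c then
        S.LL b c s * (S.nJ b : ℂ) ^ (-(ww s t)) else 0 := by
    rw [← tsum_mul_left, ← tsum_mul_left]
    refine tsum_congr fun b' => ?_
    split_ifs with hR
    · rw [AA_eq hS b' c hR (by linarith), LL, hG.ell_eq b' c hR (ne_sq hc) s (by linarith)]
      ring
    · ring
  rw [← e2]
  ring

theorem VVq_fe (hS : IsSys0 S) (hG : IsAll S Q) (c : S.G) (hc : c ≠ 1) (s t : ℂ)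
    (hs : s.re < 1 / 2) : VV S c s t = S.GG c s * VV S c (2 - s) t := by
  classical
  have e1 : ww (2 - s) t = wp s t := by
    unfold ww wp
    ring
  have e2 : wp (2 - s) t = ww s t := by
    unfold ww wp
    ring
  unfold VV
  rw [e1, e2]
  have e3 : (∑' b : S.J, if S.R b c then
        S.LL b c s * (S.nJ b : ℂ) ^ (-(ww s t)) else 0) = S.GG c s * ∑' b : S.J, if S.R b c then
        S.LL b c (2 - s) * (S.nJ b : ℂ) ^ (-(wp s t)) else 0 := by
    rw [← tsum_mul_left]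
    refine tsum_congr fun b' => ?_
    split_ifs with hR
    · rw [LLq_fe hS hG b' c hR (ne_sq hc) hs]
      have e4 : (S.nJ b' : ℂ) ^ (2 * (1 - s)) * (S.nJ b' : ℂ) ^ (-(ww s t)) =
          (S.nJ b' : ℂ) ^ (-(wp s t)) := by
        rw [nJ_cpow_add hS]
        congr 1
        unfold ww wp
        ring
      rw [← e4]
      ring
    · ring
  rw [e3]
  ring

end Pool.Agent.UPQ
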