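import Pool.Agent.UPQ.A.Y
import Pool.Agent.UPQ.A.I
import Pool.Agent.THF.A.Reg
import Pool.Agent.THF.A.Agr

/-!
# UPQ/A-X: the continuation near the half strip

`E` is the Cauchy integral `IEg` of `Q * FE`; for `Re t` large it is `om * Y` with the `Y` of `exists_YQ`, and the identity
theorem in `t` on the convex open set `OmR x1 r1 R1` carries both identities over to all `t`.
-/

namespace Pool.Agent.UPQ

open Pool.Agent.QD Pool.Agent.QD.SysD Pool.Agent.LD Pool.Agent.MD Pool.Agent.THF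

private theorem xq_open {S : SysD} (T : OmD S) (x1 r1 R1 : ℝ) : IsOpen (T.OmR x1 r1 R1) := by
  have h1 : Continuous fun t : ℂ => |t.im - T.y0| :=
    (Complex.continuous_im.sub continuous_const).abs
  exact (isOpen_lt continuous_const Complex.continuous_re).inter
    ((isOpen_lt Complex.continuous_re continuous_const).inter
      (isOpen_lt h1 continuous_const))

private theorem xq_convex {S : SysD} (T : OmD S) (x1 r1 R1 : ℝ) : Convex ℝ (T.OmR x1 r1 R1) := by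
  have h1 : T.OmR x1 r1 R1 = (Complex.im ⁻¹' Set.Ioo (T.y0 - r1) (T.y0 + r1)) ∩
      (Complex.re ⁻¹' Set.Ioo x1 R1) := by
    ext t
    simp only [OmD.OmR, Set.mem_setOf_eq, Set.mem_inter_iff, Set.mem_preimage, Set.mem_Ioo,
      abs_lt]
    constructor
    · rintro ⟨h3, h4, h1, h2⟩
      exact ⟨⟨by linarith, by linarith⟩, h3, h4⟩
    · rintro ⟨⟨h1, h2⟩, h3, h4⟩
      exact ⟨h3, h4, by linarith, by linarith⟩
  rw [h1]
  exact ((convex_Ioo _ _).linear_preimage Complex.imLm).inter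
    ((convex_Ioo _ _).linear_preimage Complex.reLm)

private theorem xq_sub {S : SysD} (T : OmD S) {x1 r1 R1 : ℝ} (h1 : T.x0 < x1) (h2 : r1 < T.r) {t : ℂ}
    (ht : t ∈ T.OmR x1 r1 R1) : t ∈ T.Om :=
  ⟨lt_trans h1 ht.1, lt_trans ht.2.2 h2⟩

/-- the identity theorem on `OmR x1 r1 R1` -/
private theorem xq_ident {S : SysD} (T : OmD S) {x1 r1 R1 A0 : ℝ} (hr : 0 < r1) (hA : A0 < R1)
    (hx : x1 < R1) {f g : ℂ → ℂ} (hf : ∀ t ∈ T.OmR x1 r1 R1, DifferentiableAt ℂ f t)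
    (hg : ∀ t ∈ T.OmR x1 r1 R1, DifferentiableAt ℂ g t)
    (h : ∀ t ∈ T.OmR x1 r1 R1, A0 < t.re → f t = g t) {t : ℂ} (ht : t ∈ T.OmR x1 r1 R1) :
    f t = g t := by
  obtain ⟨x, hx0, hx1, hx2⟩ : ∃ x : ℝ, A0 < x ∧ x1 < x ∧ x < R1 := by
    obtain ⟨x, h1, h2⟩ := exists_between (max_lt hA hx)
    exact ⟨x, lt_of_le_of_lt (le_max_left _ _) h1, lt_of_le_of_lt (le_max_right _ _) h1, h2⟩
  obtain ⟨t1, ht1⟩ : ∃ t1 : ℂ, t1 = ⟨x, T.y0⟩ := ⟨_, rfl⟩
  have ht1re : t1.re = x := by rw [ht1]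
  have ht1im : t1.im = T.y0 := by rw [ht1]
  have hm1 : t1 ∈ T.OmR x1 r1 R1 := by
    refine ⟨?_, ?_, ?_⟩
    · rw [ht1re]
      exact hx1
    · rw [ht1re]
      exact hx2
    · rw [ht1im, sub_self, abs_zero]
      exact hr
  have hfa : AnalyticOnNhd ℂ f (T.OmR x1 r1 R1) :=
    DifferentiableOn.analyticOnNhd (fun t ht => (hf t ht).differentiableWithinAt)
      (xq_open T x1 r1 R1)
  have hga : AnalyticOnNhd ℂ g (T.OmR x1 r1 R1) :=
    DifferentiableOn.analyticOnNhd (fun t ht => (hg t ht).differentiableWithinAt)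
      (xq_open T x1 r1 R1)
  have hev : f =ᶠ[nhds t1] g := by
    have h2 : IsOpen {t : ℂ | A0 < t.re} := isOpen_lt continuous_const Complex.continuous_re
    have h3 : t1 ∈ {t : ℂ | A0 < t.re} := by
      rw [Set.mem_setOf_eq, ht1re]
      exact hx0
    filter_upwards [(xq_open T x1 r1 R1).mem_nhds hm1, h2.mem_nhds h3] with t h4 h5
    exact h t h4 h5
  exact hfa.eqOn_of_preconnected_of_eventuallyEq hga (xq_convex T x1 r1 R1).isPreconnected hm1
    hev ht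

theorem thmXq {S : SysD} {Q : ℂ → ℂ} (hS : IsSys0 S) (hQ : IsMul Q) (hG : IsAll S Q) {T : OmD S}
    (hT : IsOm S T) : ∃ A0 : ℝ, 6 ≤ A0 ∧ ∀ x1 r1 R1 : ℝ, T.x0 < x1 → 0 < r1 → r1 < T.r → A0 < R1 →
      x1 < R1 → ∃ b0 : ℝ, 10 ≤ b0 ∧ R1 ≤ b0 ∧ ∀ c : S.G, c ≠ 1 → ∀ B : ℝ, b0 < B →
        ∃ E : ℂ → ℂ → ℂ,
          Hol2 {x : ℂ × ℂ | (2 - B < x.1.re ∧ x.1.re < B) ∧ x.2 ∈ T.OmR x1 r1 R1} E ∧
          (∀ s t : ℂ, b0 < s.re → s.re < B → t ∈ T.OmR x1 r1 R1 → E s t = Q s * T.FE c s t) ∧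
          ∀ s t : ℂ, 2 - B < s.re → s.re < 1 / 2 → t ∈ T.OmR x1 r1 R1 →
            E s t = S.GG c s * E (2 - s) t := by
  obtain ⟨R, Y, hR, hY⟩ := exists_YQ hS hQ hG
  obtain ⟨A1, hA1, hFE⟩ := FE_eq hS hT
  refine ⟨max R A1, le_trans hR (le_max_left _ _), ?_⟩
  intro x1 r1 R1 hx1 hr hrT hAR hxR
  obtain ⟨bb, hbb1, hbb2, hbb⟩ := FE_reg hS hT R1 hx1 hrT
  have hRA : R ≤ max R A1 := le_max_left _ _
  have hAA : A1 ≤ max R A1 := le_max_right _ _
  obtain ⟨A0, hA0⟩ : ∃ A0, A0 = max R A1 := ⟨_, rfl⟩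
  rw [← hA0] at hRA hAA hAR
  refine ⟨bb, hbb1, by linarith, ?_⟩
  intro c hc B hB
  obtain ⟨hhol, hbd⟩ := hbb c
  have hhQ : Hol2 {x : ℂ × ℂ | bb < x.1.re ∧ x.2 ∈ T.OmR x1 r1 R1} (fun s t => Q s * T.FE c s t) := by
    intro σ τ hσ hτ z hz
    exact ((hQ.diff.comp hσ) z).mul (hhol σ τ hσ hτ z hz)
  have hbQ : ∃ A C : ℝ, 0 ≤ A ∧ 0 ≤ C ∧ ∀ s t : ℂ, s.re = B → t ∈ T.OmR x1 r1 R1 →
      ‖Q s * T.FE c s t‖ ≤ C * (1 + |s.im|) ^ A := by
    obtain ⟨A2, C2, hA2, hC2, h2⟩ := hbd B hB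
    obtain ⟨A3, C3, hA3, hC3, h3⟩ := hQ.bd (B + 1) B B (by linarith)
    refine ⟨A3 + A2, C3 * C2, by linarith, by positivity, fun s t hs ht => ?_⟩
    have hx : 0 < 1 + |s.im| := by positivity
    rw [norm_mul, Real.rpow_add hx]
    calc ‖Q s‖ * ‖T.FE c s t‖ ≤ (C3 * (1 + |s.im|) ^ A3) * (C2 * (1 + |s.im|) ^ A2) :=
          mul_le_mul (h3 s hs.ge hs.le) (h2 s t hs ht) (norm_nonneg _) (by positivity)
      _ = C3 * C2 * ((1 + |s.im|) ^ A3 * (1 + |s.im|) ^ A2) := by ring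
  obtain ⟨E, hE⟩ : ∃ E, E = IEg (S.GG c) (fun s t => Q s * T.FE c s t) B := ⟨_, rfl⟩
  have hI : Hol2 {x : ℂ × ℂ | (2 - B < x.1.re ∧ x.1.re < B) ∧ x.2 ∈ T.OmR x1 r1 R1} E := by
    rw [hE]
    exact IEg_hol (hG.GG_diff c) (hG.GG_bd c) (xq_open T x1 r1 R1) hbb1 hB hhQ hbQ
  have hkey : ∀ s t : ℂ, 2 - B < s.re → s.re < B → t ∈ T.OmR x1 r1 R1 → A0 < t.re →
      E s t = T.om t * Y c s t := by
    intro s t hs1 hs2 ht htA
    have htR : R < t.re := by linarith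
    rw [hE]
    refine IEg_eq (f := fun z => T.om t * Y c z t) (b0 := bb) (by linarith) hB ?_ ?_ ?_ ?_ hs1 hs2
    · intro z
      exact (hY.hol c hc (fun z => z) (fun _ => t) (by fun_prop) (by fun_prop) z htR).const_mul _
    · obtain ⟨A, C, hA, hC, hb⟩ := hY.bd c hc (2 - B) B t.re t.re htR
      refine ⟨A, ‖T.om t‖ * (C * (1 + |t.im|) ^ A), hA, by positivity, fun z h1 h2 => ?_⟩
      show ‖T.om t * Y c z t‖ ≤ _
      rw [norm_mul, mul_assoc]
      refine mul_le_mul_of_nonneg_left ?_ (norm_nonneg _)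
      refine (hb z t h1 h2 le_rfl le_rfl).trans ?_
      rw [mul_assoc]
      refine mul_le_mul_of_nonneg_left ?_ hC
      rw [← Real.mul_rpow (by positivity) (by positivity)]
      refine Real.rpow_le_rpow (by positivity) ?_ hA
      nlinarith [abs_nonneg z.im, abs_nonneg t.im, mul_nonneg (abs_nonneg t.im) (abs_nonneg z.im)]
    · intro s' hs'
      have h1 : t.re < R1 := ht.2.1
      show Q s' * T.FE c s' t = T.om t * Y c s' t
      rw [hFE c s' t (xq_sub T hx1 hrT ht) (by linarith) (by linarith) (by linarith),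
        hY.eq c hc s' t (by linarith) htR]
      ring
    · intro s' hs'
      show T.om t * Y c s' t = S.GG c s' * (T.om t * Y c (2 - s') t)
      rw [hY.fe c hc s' t hs' htR]
      ring
  have hId : ∀ s t : ℂ, 2 - B < s.re → s.re < B → t ∈ T.OmR x1 r1 R1 →
      DifferentiableAt ℂ (fun z => E s z) t := by
    intro s t hs1 hs2 ht
    exact hI (fun _ => s) (fun z => z) (differentiable_const s) differentiable_id t
      ⟨⟨hs1, hs2⟩, ht⟩
  refine ⟨E, hI, ?_, ?_⟩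
  · intro s t hs1 hs2 ht
    have hs3 : 2 - B < s.re := by linarith
    refine xq_ident T hr hAR hxR (f := fun z => E s z) (g := fun z => Q s * T.FE c s z)
      (fun z hz => hId s z hs3 hs2 hz) ?_ ?_ ht
    · intro z hz
      exact hhQ (fun _ => s) (fun z => z) (differentiable_const s) differentiable_id z
        ⟨hs1, hz⟩
    · intro z hz hzA
      have h1 : z.re < R1 := hz.2.1
      show E s z = Q s * T.FE c s z
      rw [hkey s z hs3 hs2 hz hzA,
        hFE c s z (xq_sub T hx1 hrT hz) (by linarith) (by linarith) (by linarith),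
        hY.eq c hc s z (by linarith) (by linarith)]
      ring
  · intro s t hs1 hs2 ht
    have hs3 : s.re < B := by linarith
    have h2s : ((2 : ℂ) - s).re = 2 - s.re := by
      rw [Complex.sub_re]
      norm_num
    have hs4 : 2 - B < ((2 : ℂ) - s).re := by
      rw [h2s]
      linarith
    have hs5 : ((2 : ℂ) - s).re < B := by
      rw [h2s]
      linarith
    refine xq_ident T hr hAR hxR (f := fun z => E s z)
      (g := fun z => S.GG c s * E (2 - s) z)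
      (fun z hz => hId s z hs1 hs3 hz) ?_ ?_ ht
    · intro z hz
      exact (hId (2 - s) z hs4 hs5 hz).const_mul _
    · intro z hz hzA
      show E s z = S.GG c s * E (2 - s) z
      rw [hkey s z hs1 hs3 hz hzA, hkey (2 - s) z hs4 hs5 hz hzA,
        hY.fe c hc s z hs2 (by linarith)]
      ring

end Pool.Agent.UPQ
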